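import Pool.Agent.H852R2.DM.Defs
import Pool.Agent.H852R2.EX.OPS1
import Pool.Agent.H995R2.RC.AMP1

/-!
AMP1Q of the project DM (MP_75608d_al), adapted from `AMP1` of helper995.
-/

set_option autoImplicit false

namespace DM852
open RC14 RC852 Finset
open scoped InnerProductSpace

variable {G : Type*} [Group G] [Fintype G]
variable {V : Type*} [NormedAddCommGroup V] [InnerProductSpace ℂ V] [FiniteDimensional ℂ V]

namespace AMP1Q

open RC14.AMP1 in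
/-- one step amplification for a symmetric operator, for an irreducible representation -/
theorem gen (ρ : G →* (V ≃ₗᵢ[ℂ] V)) (hirr : Irr ρ ⊤) (T : Module.End ℂ V)
    (hT : T.IsSymmetric) (F : V → ℝ) (hT1 : ∀ v, (⟪T v, v⟫_ℂ).re ≤ ‖v‖ ^ 2)
    (hF : ∀ v, 16 * (‖v‖ ^ 2 - (⟪T v, v⟫_ℂ).re) ≤ F v) (L : ℕ) (η : ℝ)
    (hη : rtr (T ^ (2 * L)) ≤ η * Module.finrank ℂ V) (q : ℕ) (hq : 1 ≤ q) :
    (Nat.card {z : Fin q → G // ¬ ∀ v : V,
        1 / (16 * (q : ℝ) ^ 2) * ‖v‖ ^ 2 ≤ F v + En ρ z v} : ℝ) ≤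
      4 * Module.finrank ℂ V * ((8 / 7 : ℝ) ^ (2 * L) * η) ^ q * (Fintype.card G : ℝ) ^ q := by
  classical
  have hnt : Nontrivial V := by
    rcases subsingleton_or_nontrivial V with h | h
    · exfalso
      apply hirr.1
      exact Subsingleton.elim _ _
    · exact h
  have hd : (0:ℝ) < Module.finrank ℂ V := by
    exact_mod_cast Module.finrank_pos
  set d : ℝ := (Module.finrank ℂ V : ℝ) with hdd
  obtain ⟨E, hE, htr, hgap⟩ := SPEC T hT hT1 (7 / 8) (by norm_num) (by norm_num)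
  have hgap' : ∀ v, ‖v - E v‖ ^ 2 ≤ F v / 2 := by
    intro v
    have h1 := hgap v
    have h2 := hF v
    linarith
  have hE0 : 0 ≤ rtr E := by
    rw [← (hs_proj E hE).1]
    exact hs_nonneg E
  have hτ0 : 0 ≤ rtr E / d := by positivity
  have hτ : rtr E / d ≤ (8 / 7 : ℝ) ^ (2 * L) * η := by
    rw [div_le_iff₀ hd]
    have h1 := (htr L).trans hη
    have h2 : (8 / 7 : ℝ) ^ (2 * L) * ((7 / 8 : ℝ) ^ (2 * L) * rtr E) = rtr E := by
      rw [← mul_assoc, ← mul_pow]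
      norm_num
    calc rtr E = (8 / 7 : ℝ) ^ (2 * L) * ((7 / 8 : ℝ) ^ (2 * L) * rtr E) := h2.symm
      _ ≤ (8 / 7 : ℝ) ^ (2 * L) * (η * d) := by gcongr
      _ = _ := by ring
  have hpeel := PEEL ρ hirr E hE q (List.finRange q)
  have hcard : (List.finRange q).toFinset.card = q := by simp
  rw [hcard] at hpeel
  set H : (Fin q → G) → ℝ := fun z => hs (((List.finRange q).map fun i => cj ρ E (z i)).prod)
    with hH
  have hbad : ∀ z : Fin q → G, (¬ ∀ v : V,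
      1 / (16 * (q : ℝ) ^ 2) * ‖v‖ ^ 2 ≤ F v + En ρ z v) → 1 ≤ 4 * H z := by
    intro z hz
    push Not at hz
    obtain ⟨v, hv⟩ := hz
    have hX : 0 ≤ F v := by
      have h1 := hF v
      have h2 := hT1 v
      linarith
    have hZ := RC14.AMP1.En_nonneg ρ z v
    have hq' : (1:ℝ) ≤ q := by exact_mod_cast hq
    have hq0 : (0:ℝ) < q := by linarith
    have hvpos : 0 < ‖v‖ := by
      rcases (norm_nonneg v).eq_or_lt with h | h
      · rw [← h] at hv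
        simp at hv
        linarith
      · exact h
    have h1 : ‖v - E v‖ ≤ ‖v‖ / (5 * q) := by
      apply abs_le_of_sq_le_sq' _ (by positivity) |>.2
      calc ‖v - E v‖ ^ 2 ≤ F v / 2 := hgap' v
        _ ≤ (1 / (16 * (q : ℝ) ^ 2) * ‖v‖ ^ 2) / 2 := by linarith
        _ = ‖v‖ ^ 2 / (32 * q ^ 2) := by ring
        _ ≤ ‖v‖ ^ 2 / (25 * q ^ 2) := by
          apply div_le_div_of_nonneg_left (by positivity) (by positivity)
          nlinarith [sq_nonneg (q:ℝ)]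
        _ = (‖v‖ / (5 * q)) ^ 2 := by ring
    have h2 : ∀ i, ‖ρ (z i) v - v‖ ≤ ‖v‖ / (4 * q) := by
      intro i
      apply abs_le_of_sq_le_sq' _ (by positivity) |>.2
      have h3 : ‖ρ (z i) v - v‖ ^ 2 ≤ En ρ z v :=
        Finset.single_le_sum (f := fun i => ‖ρ (z i) v - v‖ ^ 2) (fun i _ => by positivity)
          (Finset.mem_univ i)
      calc ‖ρ (z i) v - v‖ ^ 2 ≤ En ρ z v := h3
        _ ≤ 1 / (16 * (q : ℝ) ^ 2) * ‖v‖ ^ 2 := by linarith
        _ = (‖v‖ / (4 * q)) ^ 2 := by ring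
    have h3 : ∀ i, ‖cj ρ E (z i) v - v‖ ≤ ‖v‖ / (2 * q) := by
      intro i
      calc ‖cj ρ E (z i) v - v‖ ≤ ‖v - E v‖ + ‖ρ (z i) v - v‖ := cj_dist ρ E hE _ _
        _ ≤ ‖v‖ / (5 * q) + ‖v‖ / (4 * q) := add_le_add h1 (h2 i)
        _ = (‖v‖ / (2 * q)) * (9 / 10) := by field_simp; norm_num
        _ ≤ ‖v‖ / (2 * q) := by
          have : 0 ≤ ‖v‖ / (2 * q) := by positivity
          linarith
    have h4 := prod_dist ρ E hE z v _ h3 (List.finRange q)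
    rw [List.length_finRange] at h4
    set P := ((List.finRange q).map fun i => cj ρ E (z i)).prod with hP
    have h5 : (q:ℝ) * (‖v‖ / (2 * q)) = ‖v‖ / 2 := by field_simp
    rw [h5] at h4
    have h6 : ‖v‖ / 2 ≤ ‖P v‖ := by
      have := norm_sub_norm_le v (P v)
      rw [norm_sub_rev] at this
      linarith
    have h7 : (‖v‖ / 2) ^ 2 ≤ hs P * ‖v‖ ^ 2 := by
      calc (‖v‖ / 2) ^ 2 ≤ ‖P v‖ ^ 2 := by gcongr
        _ ≤ _ := norm_sq_le_hs P v
    have h8 : H z = hs P := rfl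
    rw [h8]
    have h9 : 0 < ‖v‖ ^ 2 := by positivity
    nlinarith
  have hcount : (Nat.card {z : Fin q → G // ¬ ∀ v : V,
        1 / (16 * (q : ℝ) ^ 2) * ‖v‖ ^ 2 ≤ F v + En ρ z v} : ℝ) ≤ ∑ z, 4 * H z := by
    rw [Nat.card_eq_fintype_card, Fintype.card_subtype]
    rw [Finset.card_eq_sum_ones]
    push_cast
    calc _ ≤ ∑ z ∈ univ.filter (fun z : Fin q → G => ¬ ∀ v : V,
        1 / (16 * (q : ℝ) ^ 2) * ‖v‖ ^ 2 ≤ F v + En ρ z v), 4 * H z := by
          apply Finset.sum_le_sum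
          intro z hz
          exact hbad z (Finset.mem_filter.mp hz).2
      _ ≤ ∑ z, 4 * H z := by
          apply Finset.sum_le_sum_of_subset_of_nonneg (Finset.filter_subset _ _)
          intro z _ _
          have : 0 ≤ H z := hs_nonneg _
          linarith
  refine hcount.trans ?_
  rw [← Finset.mul_sum]
  have hpow : (rtr E / d) ^ q ≤ ((8 / 7 : ℝ) ^ (2 * L) * η) ^ q := pow_le_pow_left₀ hτ0 hτ q
  calc 4 * ∑ z, H z ≤ 4 * ((Fintype.card G : ℝ) ^ q * d * (rtr E / d) ^ q) := by gcongr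
    _ ≤ 4 * ((Fintype.card G : ℝ) ^ q * d * ((8 / 7 : ℝ) ^ (2 * L) * η) ^ q) := by gcongr
    _ = _ := by ring

end AMP1Q

/-- `AMP1SUB` for the operator `S` -/
theorem AMP1Q (ρ : G →* (V ≃ₗᵢ[ℂ] V)) (W : Submodule ℂ V) (hW : Irr ρ W) (q m : ℕ) (hq : 1 ≤ q)
    (x b : Fin q → G) (L : ℕ) (η : ℝ)
    (hη : RS ρ W hW.2.1 x b m (2 * L) ≤ η * Module.finrank ℂ W) (q' : ℕ) (hq' : 1 ≤ q') :
    (Nat.card {z : Fin q' → G // ¬ ∀ v ∈ W,
        1 / (16 * (q' : ℝ) ^ 2) * ‖v‖ ^ 2 ≤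
          96 * (m : ℝ) ^ 2 / q * En ρ x v + 16 / (q : ℝ) * En ρ b v + En ρ z v} : ℝ) ≤
      4 * Module.finrank ℂ W * ((8 / 7 : ℝ) ^ (2 * L) * η) ^ q' *
        (Fintype.card G : ℝ) ^ q' := by
  have h := AMP1Q.gen (res ρ W hW.2.1) (RC14.AMP1.irr_res ρ W hW)
    (Sop (res ρ W hW.2.1) x b m) (Sop_symm (res ρ W hW.2.1) x b m)
    (fun v => 96 * (m : ℝ) ^ 2 / q * En (res ρ W hW.2.1) x v +
      16 / (q : ℝ) * En (res ρ W hW.2.1) b v)
    (Sop_le hq (res ρ W hW.2.1) x b m) (fun v => by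
      have h1 := Sop_energy hq (res ρ W hW.2.1) x b m v
      have e : 96 * (m : ℝ) ^ 2 / q * En (res ρ W hW.2.1) x v +
          16 / (q : ℝ) * En (res ρ W hW.2.1) b v =
          16 * (6 * (m : ℝ) ^ 2 / q * En (res ρ W hW.2.1) x v +
            1 / (q : ℝ) * En (res ρ W hW.2.1) b v) := by ring
      show _ ≤ 96 * (m : ℝ) ^ 2 / q * En (res ρ W hW.2.1) x v +
          16 / (q : ℝ) * En (res ρ W hW.2.1) b v
      rw [e]
      exact mul_le_mul_of_nonneg_left h1 (by norm_num)) L η hη q' hq'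
  have hE : ∀ {ι : Type} [Fintype ι] (y : ι → G) (w : W),
      En (res ρ W hW.2.1) y w = En ρ y (w : V) := by
    intro ι _ y w
    unfold En
    apply Finset.sum_congr rfl
    intro i _
    rw [Submodule.coe_norm, Submodule.coe_sub, res_apply]
  have hiff : ∀ z : Fin q' → G, (¬ ∀ v ∈ W,
        1 / (16 * (q' : ℝ) ^ 2) * ‖v‖ ^ 2 ≤
          96 * (m : ℝ) ^ 2 / q * En ρ x v + 16 / (q : ℝ) * En ρ b v + En ρ z v) ↔
      (¬ ∀ v : W, 1 / (16 * (q' : ℝ) ^ 2) * ‖v‖ ^ 2 ≤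
        (96 * (m : ℝ) ^ 2 / q * En (res ρ W hW.2.1) x v +
          16 / (q : ℝ) * En (res ρ W hW.2.1) b v) + En (res ρ W hW.2.1) z v) := by
    intro z
    apply not_congr
    constructor
    · intro h1 v
      rw [hE, hE, hE, Submodule.coe_norm]
      exact h1 v v.2
    · intro h1 v hv
      have := h1 ⟨v, hv⟩
      rw [hE, hE, hE, Submodule.coe_norm] at this
      exact this
  have hc : Nat.card {z : Fin q' → G // ¬ ∀ v ∈ W,
        1 / (16 * (q' : ℝ) ^ 2) * ‖v‖ ^ 2 ≤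
          96 * (m : ℝ) ^ 2 / q * En ρ x v + 16 / (q : ℝ) * En ρ b v + En ρ z v} =
      Nat.card {z : Fin q' → G // ¬ ∀ v : W, 1 / (16 * (q' : ℝ) ^ 2) * ‖v‖ ^ 2 ≤
        (96 * (m : ℝ) ^ 2 / q * En (res ρ W hW.2.1) x v +
          16 / (q : ℝ) * En (res ρ W hW.2.1) b v) + En (res ρ W hW.2.1) z v} :=
    Nat.card_congr (Equiv.subtypeEquivRight hiff)
  rw [hc]
  exact h


end DM852
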