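import Pool.Agent.H852R2.DM.Defs

/-!
INDEP, FOUR of the project DM (MP_75608d_al).
-/

set_option autoImplicit false

namespace DM852
open RC14 RC852 Finset Equiv

/-- an element and a set which it moves off itself -/
theorem INDEP {n : ℕ} (σ : Perm (Fin n)) : ∃ A : Finset (Fin n), A ⊆ σ.support ∧
    (∀ x ∈ A, σ x ∉ A) ∧ σ.support.card ≤ 3 * A.card := by
  classical
  obtain ⟨A, hA, hmax⟩ := Finset.exists_max_image
    (σ.support.powerset.filter (fun A => ∀ x ∈ A, σ x ∉ A)) (fun A => A.card)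
    ⟨∅, by simp⟩
  rw [mem_filter, mem_powerset] at hA
  refine ⟨A, hA.1, hA.2, ?_⟩
  have hsub : σ.support ⊆ A ∪ (A.image σ ∪ A.image (σ⁻¹ : Perm (Fin n))) := by
    intro x hx
    rw [mem_union, mem_union, mem_image, mem_image]
    by_contra hc
    push Not at hc
    obtain ⟨h1, h2, h3⟩ := hc
    have hins : insert x A ∈ σ.support.powerset.filter (fun A => ∀ x ∈ A, σ x ∉ A) := by
      rw [mem_filter, mem_powerset]
      refine ⟨insert_subset hx hA.1, ?_⟩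
      intro y hy hy2
      rw [mem_insert] at hy hy2
      rcases hy with rfl | hy
      · rcases hy2 with h | h
        · exact (Perm.mem_support.1 hx) h
        · exact h3 _ h (by simp)
      · rcases hy2 with h | h
        · exact h2 y hy h
        · exact hA.2 y hy h
    have := hmax _ hins
    rw [card_insert_of_notMem h1] at this
    omega
  have h1 := card_le_card hsub
  have h2 := card_union_le A (A.image σ ∪ A.image (σ⁻¹ : Perm (Fin n)))
  have h3 := card_union_le (A.image σ) (A.image (σ⁻¹ : Perm (Fin n)))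
  have h4 : (A.image σ).card ≤ A.card := card_image_le
  have h5 : (A.image (σ⁻¹ : Perm (Fin n))).card ≤ A.card := card_image_le
  omega

/-- commutators inside `A` are products of four conjugates of `σ^{±1}` -/
theorem FOUR {n : ℕ} (σ : Perm (Fin n)) (A : Finset (Fin n)) (hA : ∀ x ∈ A, σ x ∉ A)
    (ρ ρ' : Perm (Fin n)) (hρ : ρ.support ⊆ A) (hρ' : ρ'.support ⊆ A) :
    ∃ l : List (Perm (Fin n)), l.length = 4 ∧ (∀ τ ∈ l, τ ∈ CC σ) ∧
      l.prod = ρ⁻¹ * ρ' * ρ * ρ'⁻¹ := by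
  have hdis : ∀ τ : Perm (Fin n), τ.support ⊆ A → Perm.Disjoint (σ * ρ * σ⁻¹) τ := by
    intro τ hτ x
    by_contra hc
    push Not at hc
    obtain ⟨h1, h2⟩ := hc
    have h3 : x ∈ A := hτ (Perm.mem_support.2 h2)
    have h4 : σ⁻¹ x ∈ A := by
      apply hρ
      rw [Perm.mem_support]
      intro h
      apply h1
      rw [Perm.mul_apply, Perm.mul_apply, h]
      simp
    have h5 := hA _ h4
    rw [show σ (σ⁻¹ x) = x by simp] at h5
    exact h5 h3
  have c1 : (σ * ρ * σ⁻¹) * ρ = ρ * (σ * ρ * σ⁻¹) := (hdis ρ hρ).commute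
  have c2 : (σ * ρ * σ⁻¹) * ρ' = ρ' * (σ * ρ * σ⁻¹) := (hdis ρ' hρ').commute
  refine ⟨[σ, ρ * σ⁻¹ * ρ⁻¹, (ρ' * ρ) * σ * (ρ' * ρ)⁻¹, ρ' * σ⁻¹ * ρ'⁻¹], rfl, ?_, ?_⟩
  · intro τ hτ
    simp only [List.mem_cons, List.not_mem_nil, or_false] at hτ
    rcases hτ with rfl | rfl | rfl | rfl
    · exact ⟨1, Or.inl (by simp)⟩
    · exact ⟨ρ, Or.inr rfl⟩
    · exact ⟨ρ' * ρ, Or.inl rfl⟩
    · exact ⟨ρ', Or.inr rfl⟩
  · generalize hu : σ * ρ * σ⁻¹ = u at c1 c2
    have e1 : [σ, ρ * σ⁻¹ * ρ⁻¹, (ρ' * ρ) * σ * (ρ' * ρ)⁻¹, ρ' * σ⁻¹ * ρ'⁻¹].prod =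
        (σ * ρ * σ⁻¹) * (ρ⁻¹ * ρ' * ρ) * (σ * ρ * σ⁻¹)⁻¹ * ρ'⁻¹ := by
      simp only [List.prod_cons, List.prod_nil]
      group
    rw [e1, hu]
    have c1' : Commute u ρ := c1
    have c2' : Commute u ρ' := c2
    have c3 : Commute u (ρ⁻¹ * ρ' * ρ) := (c1'.inv_right.mul_right c2').mul_right c1'
    rw [c3.eq]
    group

end DM852
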